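import Pool.Agent.X232.RR.Comp

/-!
# An E-unitary finitely presented special inverse monoid with right reversible prefix monoid,
# maximal group image with solvable word problem, and unsolvable word problem
-/

set_option autoImplicit false

namespace Pool.Agent.Results.MP_ff4305_al.UnsolvableWP

open Pool.Agent.X232.RR

/-- There are a finite alphabet and a finite set `R` of words over the letters and their inverses
such that the special inverse monoid `S = Inv⟨X | r = 1 (r ∈ R)⟩` is `E`-unitary, its prefix monoid
(the image of the `ℛ`-class of `1` in the maximal group image) is right reversible, the maximal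
group image `Gp⟨X | r = 1 (r ∈ R)⟩` has solvable word problem, but `S` has unsolvable word
problem. -/
theorem result : ∃ (k : ℕ) (R : Finset (List (Fin k × Bool))),
    EUnitary (InvMon (R : Set (List (Fin k × Bool)))) ∧
    RightReversible (prefixMonoid (R : Set (List (Fin k × Bool)))) ∧
    ComputablePred (fun w : List (Fin k × Bool) => grpVal (R : Set (List (Fin k × Bool))) w = 1) ∧
    ¬ ComputablePred (fun p : List (Fin k × Bool) × List (Fin k × Bool) =>
      sval (R : Set (List (Fin k × Bool))) p.1 = sval (R : Set (List (Fin k × Bool))) p.2) := by
  classical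
  obtain ⟨m, R, W, hW, hR⟩ := Pool.Agent.Helper270.WP.word_problem
  have hfin : (relators (relF R)).Finite := by
    have h1 : {r : List (Fin (kk R) × Bool) | ∃ x, r = [(x, true), (x, false)]}.Finite := by
      refine (Set.finite_range (fun x : Fin (kk R) => [(x, true), (x, false)])).subset ?_
      rintro r ⟨x, rfl⟩
      exact ⟨x, rfl⟩
    have h2 : {r : List (Fin (kk R) × Bool) | ∃ p ∈ relF R,
        r = pos p.1 ++ FreeGroup.invRev (pos p.2)}.Finite := by
      refine ((relF_finite R).image (fun p => pos p.1 ++ FreeGroup.invRev (pos p.2))).subset ?_
      rintro r ⟨p, hp, rfl⟩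
      exact ⟨p, hp, rfl⟩
    exact h1.union h2
  refine ⟨kk R, hfin.toFinset, ?_⟩
  rw [Set.Finite.coe_toFinset]
  refine ⟨eUnitary (soundF R) (completeF R) (revF R), rightReversible (soundF R) (completeF R)
    (revF R), ?_, ?_⟩
  · refine (decF R).of_eq fun w => ?_
    rw [grpVal_eq_one_iff (soundF R) (completeF R) (revF R)]
  · intro hc
    apply hR
    let F : ℕ → List (Fin (kk R) × Bool) × List (Fin (kk R) × Bool) := fun n =>
      ((pos (pw R (W n)) ++ FreeGroup.invRev (pos (tw R (W n)))) ++
        (pos (tw R (W n)) ++ FreeGroup.invRev (pos (pw R (W n)))), [])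
    have hF : Computable F := by
      have h1 : Primrec (fun w : List (Fin m × Bool) =>
          (((pos (pw R w) ++ FreeGroup.invRev (pos (tw R w))) ++
          (pos (tw R w) ++ FreeGroup.invRev (pos (pw R w))), ([] : List (Fin (kk R) × Bool))))) := by
        have a1 : Primrec (fun w : List (Fin m × Bool) => pos (pw R w)) := prim_pos.comp (prim_pw R)
        have a2 : Primrec (fun w : List (Fin m × Bool) => pos (tw R w)) := prim_pos.comp (prim_tw R)
        exact Primrec.pair (Primrec.list_append.comp
          (Primrec.list_append.comp a1 (prim_inv.comp a2))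
          (Primrec.list_append.comp a2 (prim_inv.comp a1))) (Primrec.const [])
      exact h1.to_comp.comp hW
    refine (computablePred_comp hc hF).of_eq fun n => ?_
    rw [← mem_iff]
    exact unit_iff (soundF R) (completeF R) (pw R (W n)) (tw R (W n))

end Pool.Agent.Results.MP_ff4305_al.UnsolvableWP
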